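import Pool.Agent.Y782.WU.Stm

set_option autoImplicit false

/-!
# WU-EQ2: equivariance of the forests
-/

open MeasureTheory ProbabilityTheory Filter Topology
open scoped ENNReal NNReal BigOperators unitInterval

namespace Pool.Agent.Y74.WU

open Pool.Agent.Y782.WU

section
variable {V : Type} (τ : Equiv.Perm V)

theorem reach_comap (H : SimpleGraph V) (v w : V) :
    (H.comap τ).Reachable v w ↔ H.Reachable (τ v) (τ w) :=
  (SimpleGraph.Iso.reachable_iff (φ := SimpleGraph.Iso.comap τ H) (u := v) (v := w)).symm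

theorem ncard_pre (S : Set V) : Set.ncard {z | τ z ∈ S} = Set.ncard S := by
  have h : τ '' {z | τ z ∈ S} = S := by
    ext z
    constructor
    · rintro ⟨y, hy, rfl⟩
      exact hy
    · intro hz
      exact ⟨τ.symm z, by simpa using hz, by simp⟩
  rw [← Set.ncard_image_of_injective _ τ.injective, h]

theorem cls_ncard (H : SimpleGraph V) (x : V) :
    Set.ncard (cls (H.comap τ) x) = Set.ncard (cls H (τ x)) := by
  rw [← ncard_pre τ (cls H (τ x))]
  congr 1
  ext z
  exact reach_comap τ H x z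

theorem rk_comap (H : SimpleGraph V) (o : V → I) (x w : V) :
    rk (H.comap τ) (fun v => o (τ v)) x w = rk H o (τ x) (τ w) := by
  unfold rk
  rw [← ncard_pre τ {z | H.Reachable (τ x) z ∧ o z < o (τ w)}]
  congr 1
  ext z
  show (H.comap τ).Reachable x z ∧ o (τ z) < o (τ w) ↔ H.Reachable (τ x) (τ z) ∧ o (τ z) < o (τ w)
  rw [reach_comap]

theorem fromRel_comap (r : V → V → Prop) :
    (SimpleGraph.fromRel r).comap τ = SimpleGraph.fromRel (fun x y => r (τ x) (τ y)) := by
  ext x y
  simp only [SimpleGraph.comap_adj, SimpleGraph.fromRel_adj, ne_eq, τ.injective.eq_iff]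

/-- `pull` with a free size -/
noncomputable def PG (k : ℕ) (H : SimpleGraph V) (o : V → I) (x : V) (A : SimpleGraph V) :
    SimpleGraph (Fin k) :=
  SimpleGraph.fromRel (fun a b => ∃ v w, H.Reachable x v ∧ H.Reachable x w ∧
    rk H o x v = (a : ℕ) ∧ rk H o x w = (b : ℕ) ∧ A.Adj v w)

theorem PG_comap (k : ℕ) (H : SimpleGraph V) (o : V → I) (x : V) (A : SimpleGraph V) :
    PG k (H.comap τ) (fun v => o (τ v)) x (A.comap τ) = PG k H o (τ x) A := by
  unfold PG
  congr 1
  funext a b
  apply propext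
  constructor
  · rintro ⟨v, w, h1, h2, h3, h4, h5⟩
    rw [reach_comap] at h1 h2
    rw [rk_comap] at h3 h4
    exact ⟨τ v, τ w, h1, h2, h3, h4, h5⟩
  · rintro ⟨v, w, h1, h2, h3, h4, h5⟩
    refine ⟨τ.symm v, τ.symm w, ?_, ?_, ?_, ?_, ?_⟩
    · rw [reach_comap, Equiv.apply_symm_apply]; exact h1
    · rw [reach_comap, Equiv.apply_symm_apply]; exact h2
    · rw [rk_comap, Equiv.apply_symm_apply]; exact h3
    · rw [rk_comap, Equiv.apply_symm_apply]; exact h4
    · rw [SimpleGraph.comap_adj, Equiv.apply_symm_apply, Equiv.apply_symm_apply]; exact h5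

/-- the relation in `stepT`, with a free size -/
def SR (Kf : KT) (H H' T : SimpleGraph V) (o u : V → I) (x y : V) : Prop :=
  ∃ k : ℕ, k = Set.ncard (cls H' x) ∧ H'.Reachable x y ∧ ∃ m, H'.Reachable x m ∧
    rk H' o x m = 0 ∧ ∃ a b : Fin k, rk H' o x x = (a : ℕ) ∧ rk H' o x y = (b : ℕ) ∧
      (Kf k (PG k H' o x H) (PG k H' o x H') (PG k H' o x T) (u m)).Adj a b

theorem stepT_eq (Kf : KT) (H H' T : SimpleGraph V) (o u : V → I) :
    stepT Kf H H' T o u = SimpleGraph.fromRel (SR Kf H H' T o u) := by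
  unfold stepT
  congr 1
  funext x y
  apply propext
  constructor
  · intro h
    exact ⟨_, rfl, h⟩
  · rintro ⟨k, rfl, h⟩
    exact h

theorem stepT_comap (Kf : KT) (H H' T : SimpleGraph V) (o u : V → I) :
    stepT Kf (H.comap τ) (H'.comap τ) (T.comap τ) (fun v => o (τ v)) (fun v => u (τ v)) =
      (stepT Kf H H' T o u).comap τ := by
  rw [stepT_eq, stepT_eq, fromRel_comap]
  congr 1
  funext x y
  apply propext
  unfold SR
  simp only [cls_ncard, reach_comap, rk_comap, PG_comap]
  constructor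
  · rintro ⟨k, h1, h2, m, h3, h4, h5⟩
    exact ⟨k, h1, h2, τ m, h3, h4, h5⟩
  · rintro ⟨k, h1, h2, m, h3, h4, h5⟩
    refine ⟨k, h1, h2, τ.symm m, ?_, ?_, ?_⟩
    · rw [Equiv.apply_symm_apply]; exact h3
    · rw [Equiv.apply_symm_apply]; exact h4
    · rw [Equiv.apply_symm_apply]; exact h5

theorem Tn_comap (Kf : KT) (H : ℕ → SimpleGraph V) (o : V → I) (u : ℕ → V → I) (n : ℕ) :
    Tn Kf (fun n => (H n).comap τ) (fun v => o (τ v)) (fun n v => u n (τ v)) n =
      (Tn Kf H o u n).comap τ := by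
  induction n with
  | zero =>
    ext x y
    simp [Tn]
  | succ n ih =>
    show stepT Kf ((H n).comap τ) ((H (n + 1)).comap τ)
      (Tn Kf (fun n => (H n).comap τ) (fun v => o (τ v)) (fun n v => u n (τ v)) n)
      (fun v => o (τ v)) (fun v => u n (τ v)) = _
    rw [ih, stepT_comap]
    rfl

end

/-- **EQ2** -/
theorem eq2 : S_EQ2 := by
  intro V τ Kf H o u
  unfold Tlim
  rw [fromRel_comap]
  congr 1
  funext x y
  apply propext
  simp only [Tn_comap, SimpleGraph.comap_adj]

end Pool.Agent.Y74.WU
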